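import Pool.Agent.Helper52.ES.Spec
import Pool.Agent.Helper34.Grid.Xor
import Pool.Agent.Helper58.Grid.Sound

set_option autoImplicit false

/-! # Module RS (helper33): soundness of the formula graph, with the right ends of the rows -/

namespace Pool.Agent.Helper33.ES

open Pool.Agent.Helper52.ES Pool.Agent.Helper52.Grid Pool.Agent.Helper34.Grid

lemma rs_hC (s : List Sub) (M i r j : ℕ) (hi : i < 2 * M + 1) (hr : r < 6) :
    hC s M (5 + 4 * s.length + j) (4 + 6 * i + r) = hR r j := by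
  unfold hC
  have h1 : ¬ (4 + 6 * i + r < 4) := by omega
  have h2 : (4 + 6 * i + r - 4) / 6 = i := by omega
  have h3 : (4 + 6 * i + r - 4) % 6 = r := by omega
  have h4 : ¬ (5 + 4 * s.length + j < 5) := by omega
  have h5 : ¬ (5 + 4 * s.length + j < 5 + 4 * s.length) := by omega
  have h6 : 5 + 4 * s.length + j - (5 + 4 * s.length) = j := by omega
  rw [if_neg h1, h2, if_pos hi, if_neg h4, if_neg h5, h6, h3]

lemma rs_vC (s : List Sub) (M i r j : ℕ) (hi : i < 2 * M + 1) (hr : r < 6) :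
    vC s M (5 + 4 * s.length + j) (4 + 6 * i + r) = vR i r j := by
  unfold vC
  have h1 : ¬ (4 + 6 * i + r < 4) := by omega
  have h2 : (4 + 6 * i + r - 4) / 6 = i := by omega
  have h3 : (4 + 6 * i + r - 4) % 6 = r := by omega
  have h4 : ¬ (5 + 4 * s.length + j < 5) := by omega
  have h5 : ¬ (5 + 4 * s.length + j < 5 + 4 * s.length) := by omega
  have h6 : 5 + 4 * s.length + j - (5 + 4 * s.length) = j := by omega
  rw [if_neg h1, h2, if_pos hi, if_neg h4, if_neg h5, h6, h3]

section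
variable {s : List Sub} {M : ℕ} {hU vU : ℕ → ℕ → Bool}

lemma rs_hval (U : Use (hC s M) (vC s M) hU vU) (i r j : ℕ) (hi : i < 2 * M + 1) (hr : r < 6) :
    (hR r j = 0 → hU (5 + 4 * s.length + j) (4 + 6 * i + r) = true) ∧
    (hR r j = 4 → hU (5 + 4 * s.length + j) (4 + 6 * i + r) = false) := by
  rw [← rs_hC s M i r j hi hr]
  exact ⟨U.h0 _ _, fun h => U.h4 _ _ (by omega) (by omega)⟩

lemma rs_vval (U : Use (hC s M) (vC s M) hU vU) (i r j : ℕ) (hi : i < 2 * M + 1) (hr : r < 6) :
    (vR i r j = 0 → vU (5 + 4 * s.length + j) (4 + 6 * i + r) = true) ∧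
    (vR i r j = 4 → vU (5 + 4 * s.length + j) (4 + 6 * i + r) = false) := by
  rw [← rs_vC s M i r j hi hr]
  exact ⟨U.v0 _ _, fun h => U.v4 _ _ (by omega) (by omega)⟩

/-- the right ring -/
structure REnd (s : List Sub) (hU vU : ℕ → ℕ → Bool) (i : ℕ) : Prop where
  a : hU (5 + 4 * s.length) (7 + 6 * i) = !vU (5 + 4 * s.length) (7 + 6 * i)
  b : vU (6 + 4 * s.length) (7 + 6 * i) = vU (5 + 4 * s.length) (7 + 6 * i)
  c : hU (5 + 4 * s.length) (8 + 6 * i) = !vU (5 + 4 * s.length) (7 + 6 * i)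

/-- the situation: the last block of row `i` is in the subcolumn `k` -/
structure RSit (s : List Sub) (M : ℕ) (hU vU : ℕ → ℕ → Bool) (i k : ℕ) : Prop where
  hs : ∀ k i d, sg s k = some (i, d) → i < 2 * M + 1
  U : Use (hC s M) (vC s M) hU vU
  hl : k < s.length
  hi : i < 2 * M + 1
  hk : kind (sg s k) i = .blk ∨ kind (sg s k) i = .dblk
  hno : ∀ m, k < m → ∀ d, sg s m ≠ some (i, d)

variable {i k : ℕ}

/-- the cost of the last horizontal edge of the strand on line `3` -/
lemma RSit.strand3 (S : RSit s M hU vU i k) : hC s M (4 + 4 * s.length) (7 + 6 * i) = 0 := by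
  have hl := S.hl
  have h := hC_cell s M (s.length - 1) 3 i 3 (by omega) (by norm_num) S.hi (by norm_num)
  have e1 : 5 + 4 * (s.length - 1) + 3 = 4 + 4 * s.length := by omega
  have e2 : 4 + 6 * i + 3 = 7 + 6 * i := by omega
  rw [e1, e2] at h
  rw [h]
  cases kind (sg s (s.length - 1)) i <;> rfl

lemma RSit.rend (S : RSit s M hU vU i k) : REnd s hU vU i := by
  have hl := S.hl
  have hi := S.hi
  have U := S.U
  have H := fun r j (hr : r < 6) => rs_hval U i r j hi hr
  have V := fun r j (hr : r < 6) => rs_vval U i r j hi hr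
  have c3 := S.strand3
  have u3 : hU (4 + 4 * s.length) (7 + 6 * i) = true := U.h0 _ _ c3
  -- values
  have e1 : vU (5 + 4 * s.length + 0) (4 + 6 * i + 2) = false := (V 2 0 (by norm_num)).2 rfl
  have e2 : vU (5 + 4 * s.length + 0) (4 + 6 * i + 4) = true := (V 4 0 (by norm_num)).1 rfl
  have e3 : vU (5 + 4 * s.length + 1) (4 + 6 * i + 2) = true := (V 2 1 (by norm_num)).1 rfl
  have e4 : vU (5 + 4 * s.length + 1) (4 + 6 * i + 4) = false := (V 4 1 (by norm_num)).2 rfl
  have e5 : hU (5 + 4 * s.length + 1) (4 + 6 * i + 3) = false := (H 3 1 (by norm_num)).2 rfl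
  have e6 : hU (5 + 4 * s.length + 1) (4 + 6 * i + 4) = true := (H 4 1 (by norm_num)).1 rfl
  have c1 : vC s M (5 + 4 * s.length + 0) (4 + 6 * i + 4) = 0 := by
    rw [rs_vC s M i 4 0 hi (by norm_num)]; rfl
  have c2 : vC s M (5 + 4 * s.length + 1) (4 + 6 * i + 2) = 0 := by
    rw [rs_vC s M i 2 1 hi (by norm_num)]; rfl
  have c4 : hC s M (5 + 4 * s.length + 1) (4 + 6 * i + 4) = 0 := by
    rw [rs_hC s M i 4 1 hi (by norm_num)]; rfl
  -- line 4, column 4 + 4 n : absent
  have e7 : hU (4 + 4 * s.length) (8 + 6 * i) = false := by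
    have h := hC_cell s M (s.length - 1) 3 i 4 (by omega) (by norm_num) hi (by norm_num)
    have a1 : 5 + 4 * (s.length - 1) + 3 = 4 + 4 * s.length := by omega
    have a2 : 4 + 6 * i + 4 = 8 + 6 * i := by omega
    rw [a1, a2] at h
    have h' : hC s M (4 + 4 * s.length) (8 + 6 * i) = 4 := by
      rw [h]
      cases kind (sg s (s.length - 1)) i <;> rfl
    exact U.h4 _ _ (by rw [h']; norm_num) (by rw [h']; norm_num)
  have n1 : 5 + 4 * s.length + 0 = 5 + 4 * s.length := by omega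
  have n2 : 5 + 4 * s.length + 1 = 6 + 4 * s.length := by omega
  have l2 : 4 + 6 * i + 2 = 6 + 6 * i := by omega
  have l3 : 4 + 6 * i + 3 = 7 + 6 * i := by omega
  have l4 : 4 + 6 * i + 4 = 8 + 6 * i := by omega
  rw [n1, l2] at e1
  rw [n1, l4] at e2 c1
  rw [n2, l2] at e3 c2
  rw [n2, l4] at e4 e6 c4
  rw [n2, l3] at e5
  have x1 : 4 + 4 * s.length + 1 = 5 + 4 * s.length := by omega
  have x2 : 5 + 4 * s.length + 1 = 6 + 4 * s.length := by omega
  have y3 : 6 + 6 * i + 1 = 7 + 6 * i := by omega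
  have y4 : 7 + 6 * i + 1 = 8 + 6 * i := by omega
  have d1 := degH U (4 + 4 * s.length) (6 + 6 * i) (by rw [y3]; exact Or.inr (Or.inl c3))
  have d2 := degH U (5 + 4 * s.length) (6 + 6 * i) (by
    rw [y3, x2]; exact Or.inr (Or.inr (Or.inr c2)))
  have d3 := degH U (4 + 4 * s.length) (7 + 6 * i) (by
    rw [y4, x1]; exact Or.inr (Or.inr (Or.inl c1)))
  rw [x1, y3, u3, e1] at d1
  rw [x2, y3, e5, e3] at d2
  rw [x1, y4, e7, e2] at d3
  simp only [Bool.toNat_true, Bool.toNat_false] at d1 d2 d3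
  refine ⟨?_, ?_, ?_⟩
  · revert d1
    cases vU (5 + 4 * s.length) (7 + 6 * i) <;> cases hU (5 + 4 * s.length) (7 + 6 * i) <;> simp
  · revert d1 d2
    cases vU (5 + 4 * s.length) (7 + 6 * i) <;> cases hU (5 + 4 * s.length) (7 + 6 * i) <;>
      cases vU (6 + 4 * s.length) (7 + 6 * i) <;> simp
  · revert d3
    cases vU (5 + 4 * s.length) (7 + 6 * i) <;> cases hU (5 + 4 * s.length) (8 + 6 * i) <;> simp

lemma RSit.vert (S : RSit s M hU vU i k) {x r : ℕ} (hr : r < 6) (h1 : 7 + 4 * k ≤ x)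
    (h2 : x ≤ 6 + 4 * s.length) (h : vU x (4 + 6 * i + r) = true) :
    (x = 7 + 4 * k ∧ r < 5) ∨ (x = 8 + 4 * k ∧ r = 2) ∨
      (x = 5 + 4 * s.length ∧ (r = 3 ∨ r = 4)) ∨
      (x = 6 + 4 * s.length ∧ (r = 1 ∨ r = 2 ∨ r = 3)) ∨
      ∃ m, k < m ∧ m < s.length ∧ (x = 6 + 4 * m ∨ x = 7 + 4 * m) ∧ Crs hU vU m i := by
  have hl := S.hl
  rcases Nat.lt_or_ge x (5 + 4 * s.length) with hx | hx
  · obtain ⟨m, j, hx, hj, hm1, hm2⟩ := col_split k (s.length - 1) x (by omega) (by omega)
    subst hx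
    rcases Nat.lt_or_ge k m with hlt | hge
    · right; right; right; right
      have := btw_v S.U S.hs (by omega) S.hi (S.hno m hlt) hj hr h
      exact ⟨m, hlt, by omega, by omega, this.2⟩
    · have : m = k := by omega
      subst this
      have := blk_v S.U (by omega) S.hi S.hk hj hr h
      omega
  · have hj : x = 5 + 4 * s.length + 0 ∨ x = 5 + 4 * s.length + 1 := by omega
    have hr' : r = 0 ∨ r = 1 ∨ r = 2 ∨ r = 3 ∨ r = 4 ∨ r = 5 := by omega
    rcases hj with rfl | rfl
    · have h3 := (rs_vval S.U i r 0 S.hi hr).2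
      rcases hr' with rfl | rfl | rfl | rfl | rfl | rfl
      · exact absurd h (by rw [h3 rfl]; simp)
      · exact absurd h (by rw [h3 rfl]; simp)
      · exact absurd h (by rw [h3 rfl]; simp)
      · omega
      · omega
      · exact absurd h (by rw [h3 rfl]; simp)
    · have h3 := (rs_vval S.U i r 1 S.hi hr).2
      rcases hr' with rfl | rfl | rfl | rfl | rfl | rfl
      · exact absurd h (by rw [h3 rfl]; simp)
      · omega
      · omega
      · omega
      · exact absurd h (by rw [h3 rfl]; simp)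
      · exact absurd h (by rw [h3 rfl]; simp)

lemma RSit.hor (S : RSit s M hU vU i k) {x r : ℕ} (hr : r < 6) (h1 : 6 + 4 * k ≤ x)
    (h2 : x ≤ 6 + 4 * s.length) (h : hU x (4 + 6 * i + r) = true) :
    (x = 6 + 4 * k ∧ (r = 0 ∨ r = 1 ∨ r = 3)) ∨ (x = 7 + 4 * k ∧ (r = 1 ∨ r = 2 ∨ r = 5)) ∨
      (x = 8 + 4 * k ∧ r % 2 = 1) ∨ (x = 5 + 4 * s.length ∧ (r = 1 ∨ r = 3 ∨ r = 4)) ∨
      (x = 6 + 4 * s.length ∧ r = 4) ∨
      ∃ m, k < m ∧ m < s.length ∧ ((r % 2 = 1 ∧ 5 + 4 * m ≤ x ∧ x < 9 + 4 * m) ∨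
        x = 6 + 4 * m) := by
  have hl := S.hl
  rcases Nat.lt_or_ge x (5 + 4 * s.length) with hx | hx
  · obtain ⟨m, j, hx, hj, hm1, hm2⟩ := col_split k (s.length - 1) x (by omega) (by omega)
    subst hx
    rcases Nat.lt_or_ge k m with hlt | hge
    · right; right; right; right; right
      have := btw_h S.U (by omega) S.hi (S.hno m hlt) hj hr h
      exact ⟨m, hlt, by omega, by omega⟩
    · have : m = k := by omega
      subst this
      have := blk_h S.U (by omega) S.hi S.hk hj hr h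
      omega
  · have hj : x = 5 + 4 * s.length + 0 ∨ x = 5 + 4 * s.length + 1 := by omega
    have hr' : r = 0 ∨ r = 1 ∨ r = 2 ∨ r = 3 ∨ r = 4 ∨ r = 5 := by omega
    rcases hj with rfl | rfl
    · have h3 := (rs_hval S.U i r 0 S.hi hr).2
      rcases hr' with rfl | rfl | rfl | rfl | rfl | rfl
      · exact absurd h (by rw [h3 rfl]; simp)
      · omega
      · exact absurd h (by rw [h3 rfl]; simp)
      · omega
      · omega
      · exact absurd h (by rw [h3 rfl]; simp)
    · have h3 := (rs_hval S.U i r 1 S.hi hr).2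
      rcases hr' with rfl | rfl | rfl | rfl | rfl | rfl
      · exact absurd h (by rw [h3 rfl]; simp)
      · exact absurd h (by rw [h3 rfl]; simp)
      · exact absurd h (by rw [h3 rfl]; simp)
      · exact absurd h (by rw [h3 rfl]; simp)
      · omega
      · exact absurd h (by rw [h3 rfl]; simp)

lemma RSit.hor6 (S : RSit s M hU vU i k) {x : ℕ} (h1 : 6 + 4 * k ≤ x)
    (h2 : x ≤ 6 + 4 * s.length) (h : hU x (10 + 6 * i) = true) :
    x % 4 = 2 ∧ x < 5 + 4 * s.length := by
  have hl := S.hl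
  rcases Nat.lt_or_ge x (5 + 4 * s.length) with hx | hx
  · obtain ⟨m, j, hx, hj, hm1, hm2⟩ := col_split k (s.length - 1) x (by omega) (by omega)
    subst hx
    have e : 10 + 6 * i = 4 + 6 * (i + 1) := by omega
    rw [e] at h
    have := line0 S.U (i := i + 1) (m := m) (by omega) hj h
    omega
  · exfalso
    have h4 : hC s M x (10 + 6 * i) = 4 := by
      by_cases hi : i + 1 < 2 * M + 1
      · have hj : x = 5 + 4 * s.length + 0 ∨ x = 5 + 4 * s.length + 1 := by omega
        have e : 10 + 6 * i = 4 + 6 * (i + 1) + 0 := by omega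
        rcases hj with rfl | rfl
        · rw [e, rs_hC s M (i + 1) 0 0 hi (by norm_num)]; rfl
        · rw [e, rs_hC s M (i + 1) 0 1 hi (by norm_num)]; rfl
      · unfold hC
        have e1 : ¬ (10 + 6 * i < 4) := by omega
        have e2 : ¬ ((10 + 6 * i - 4) / 6 < 2 * M + 1) := by omega
        rw [if_neg e1, if_neg e2]
    have h3 := S.U.h4 _ _ (by rw [h4]; norm_num) (by rw [h4]; norm_num)
    exact ff h h3

/-- the crossed cell behind a used vertical edge of a cluster column -/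
lemma RSit.crs_of (S : RSit s M hU vU i k) {m r : ℕ} (hr : r < 6) (h1 : k < m)
    (h2 : m < s.length) (h : vU (6 + 4 * m) (4 + 6 * i + r) = true) : Crs hU vU m i := by
  rcases S.vert hr (by omega) (by omega) h with ⟨h3, _⟩ | ⟨h3, _⟩ | ⟨h3, _⟩ | ⟨h3, _⟩ |
    ⟨m', hm1, hm2, hm, hc⟩
  · omega
  · omega
  · omega
  · omega
  · have : m' = m := by omega
    subst this
    exact hc

/-- the closed set if the block and the right ring are in the state `true` -/
def RT (vU : ℕ → ℕ → Bool) (i k n : ℕ) (p : Pt) : Prop :=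
  (p.2 = 6 + 6 * i ∧ (p.1 = 7 + 4 * k ∨ p.1 = 8 + 4 * k ∨
    (btw k n p.1 ∧ vU (6 + 4 * ((p.1 - 5) / 4)) (6 + 6 * i) = true))) ∨
  ((p.2 = 7 + 6 * i ∨ p.2 = 9 + 6 * i) ∧ 7 + 4 * k ≤ p.1 ∧ p.1 ≤ 5 + 4 * n) ∨
  (p.2 = 8 + 6 * i ∧ (p.1 = 7 + 4 * k ∨ p.1 = 5 + 4 * n ∨ btw k n p.1)) ∨
  (p.2 = 10 + 6 * i ∧ btw k n p.1 ∧ vU (6 + 4 * ((p.1 - 5) / 4)) (9 + 6 * i) = true)

/-- membership on the cluster lines `6` and `10` -/
lemma RT6 {vU : ℕ → ℕ → Bool} {i k n m x : ℕ} (h1 : k < m) (h2 : m < n)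
    (h3 : x = 6 + 4 * m ∨ x = 7 + 4 * m) :
    RT vU i k n (x, 6 + 6 * i) ↔ vU (6 + 4 * m) (6 + 6 * i) = true := by
  have b := btw_mk h1 h2 h3
  constructor
  · rintro (⟨_, h⟩ | ⟨h, _⟩ | ⟨h, _⟩ | ⟨h, _⟩)
    · simp only at h
      rcases h with h | h | h
      · omega
      · omega
      · rw [b.2] at h; exact h.2
    · simp only at h; omega
    · simp only at h; omega
    · simp only at h; omega
  · intro h
    refine Or.inl ⟨rfl, Or.inr (Or.inr ⟨b.1, ?_⟩)⟩
    simp only
    rwa [b.2]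

lemma RT10 {vU : ℕ → ℕ → Bool} {i k n m x : ℕ} (h1 : k < m) (h2 : m < n)
    (h3 : x = 6 + 4 * m ∨ x = 7 + 4 * m) :
    RT vU i k n (x, 10 + 6 * i) ↔ vU (6 + 4 * m) (9 + 6 * i) = true := by
  have b := btw_mk h1 h2 h3
  constructor
  · rintro (⟨h, _⟩ | ⟨h, _⟩ | ⟨h, _⟩ | ⟨_, _, h⟩)
    · simp only at h; omega
    · simp only at h; omega
    · simp only at h; omega
    · simp only at h
      rwa [b.2] at h
  · intro h
    refine Or.inr (Or.inr (Or.inr ⟨rfl, b.1, ?_⟩))
    simp only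
    rwa [b.2]

lemma RT_h (S : RSit s M hU vU i k) (g : hU (6 + 4 * k) (7 + 6 * i) = false)
    (g' : hU (5 + 4 * s.length) (7 + 6 * i) = false)
    (g'' : hU (5 + 4 * s.length) (8 + 6 * i) = false) (x y : ℕ) (h : hU x y = true) :
    RT vU i k s.length (x, y) ↔ RT vU i k s.length (x + 1, y) := by
  have hl := S.hl
  by_cases hx : 6 + 4 * k ≤ x ∧ x ≤ 5 + 4 * s.length
  swap
  · -- both sides are false
    constructor
    · intro h1
      exfalso
      simp only [RT, Pool.Agent.Helper34.Grid.btw] at h1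
      omega
    · intro h1
      exfalso
      simp only [RT, Pool.Agent.Helper34.Grid.btw] at h1
      omega
  obtain ⟨hx1, hx2⟩ := hx
  by_cases h2 : y = 6 + 6 * i
  · subst h2
    have e : 6 + 6 * i = 4 + 6 * i + 2 := by omega
    have h' := h
    rw [e] at h'
    rcases S.hor (by norm_num) hx1 (by omega) h' with ⟨_, hr⟩ | ⟨rfl, _⟩ | ⟨_, hr⟩ | ⟨_, hr⟩ |
      ⟨_, hr⟩ | ⟨m, hm1, hm2, hm⟩
    · omega
    · exact ⟨fun _ => Or.inl ⟨rfl, Or.inr (Or.inl (by simp only; omega))⟩,
        fun _ => Or.inl ⟨rfl, Or.inl rfl⟩⟩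
    · omega
    · omega
    · omega
    · have hxm : x = 6 + 4 * m := by omega
      subst hxm
      rw [RT6 hm1 hm2 (Or.inl rfl), RT6 hm1 hm2 (Or.inr (by omega))]
  by_cases h3 : y = 7 + 6 * i
  · subst h3
    have n1 : x ≠ 6 + 4 * k := by rintro rfl; exact ff h g
    have n2 : x ≠ 5 + 4 * s.length := by rintro rfl; exact ff h g'
    exact ⟨fun _ => Or.inr (Or.inl ⟨Or.inl rfl, by simp only; omega, by simp only; omega⟩),
      fun _ => Or.inr (Or.inl ⟨Or.inl rfl, by simp only; omega, by simp only; omega⟩)⟩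
  by_cases h5 : y = 9 + 6 * i
  · subst h5
    have e : 9 + 6 * i = 4 + 6 * i + 5 := by omega
    have h' := h
    rw [e] at h'
    have hh := S.hor (by norm_num) hx1 (by omega) h'
    have hx3 : x ≠ 6 + 4 * k ∧ x ≠ 5 + 4 * s.length := by
      rcases hh with ⟨_, hr⟩ | ⟨hr, _⟩ | ⟨hr, _⟩ | ⟨_, hr⟩ | ⟨_, hr⟩ | ⟨m, hm1, hm2, hm⟩
      · omega
      · omega
      · omega
      · omega
      · omega
      · omega
    exact ⟨fun _ => Or.inr (Or.inl ⟨Or.inr rfl, by simp only; omega, by simp only; omega⟩),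
      fun _ => Or.inr (Or.inl ⟨Or.inr rfl, by simp only; omega, by simp only; omega⟩)⟩
  by_cases h4 : y = 8 + 6 * i
  · subst h4
    have e : 8 + 6 * i = 4 + 6 * i + 4 := by omega
    have h' := h
    rw [e] at h'
    have hh := S.hor (by norm_num) hx1 (by omega) h'
    rcases hh with ⟨_, hr⟩ | ⟨_, hr⟩ | ⟨_, hr⟩ | ⟨rfl, hr⟩ | ⟨hr, _⟩ | ⟨m, hm1, hm2, hm⟩
    · omega
    · omega
    · omega
    · exact (ff h g'').elim
    · omega
    · have hxm : x = 6 + 4 * m := by omega
      subst hxm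
      have b1 := btw_mk hm1 hm2 (Or.inl (rfl : 6 + 4 * m = 6 + 4 * m))
      have b2 := btw_mk hm1 hm2 (x := 6 + 4 * m + 1) (Or.inr (by omega))
      exact ⟨fun _ => Or.inr (Or.inr (Or.inl ⟨rfl, Or.inr (Or.inr b2.1)⟩)),
        fun _ => Or.inr (Or.inr (Or.inl ⟨rfl, Or.inr (Or.inr b1.1)⟩))⟩
  by_cases h6 : y = 10 + 6 * i
  · subst h6
    have hx4 := S.hor6 hx1 (by omega) h
    by_cases hk : k < (x - 5) / 4
    · have hxm : x = 6 + 4 * ((x - 5) / 4) := by omega
      rw [RT10 hk (by omega) (Or.inl hxm), RT10 hk (by omega) (Or.inr (by omega))]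
    · have hxk : x = 6 + 4 * k := by omega
      subst hxk
      simp only [RT, Pool.Agent.Helper34.Grid.btw]
      omega
  · constructor
    · intro h1
      exfalso
      simp only [RT] at h1
      omega
    · intro h1
      exfalso
      simp only [RT] at h1
      omega

lemma RT_v (S : RSit s M hU vU i k) (g : vU (7 + 4 * k) (5 + 6 * i) = false)
    (x y : ℕ) (h : vU x y = true) :
    RT vU i k s.length (x, y) ↔ RT vU i k s.length (x, y + 1) := by
  have hl := S.hl
  by_cases hx : 7 + 4 * k ≤ x ∧ x ≤ 5 + 4 * s.length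
  swap
  · -- both sides are false
    constructor
    · intro h1
      exfalso
      simp only [RT, Pool.Agent.Helper34.Grid.btw] at h1
      omega
    · intro h1
      exfalso
      simp only [RT, Pool.Agent.Helper34.Grid.btw] at h1
      omega
  obtain ⟨hx1, hx2⟩ := hx
  by_cases h1 : y = 5 + 6 * i
  · subst h1
    have e : 5 + 6 * i = 4 + 6 * i + 1 := by omega
    have h' := h
    rw [e] at h'
    constructor
    · intro h1
      exfalso
      simp only [RT] at h1
      omega
    · intro h1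
      exfalso
      have e6 : 5 + 6 * i + 1 = 6 + 6 * i := by omega
      rw [e6] at h1
      rcases S.vert (by norm_num) hx1 (by omega) h' with ⟨rfl, _⟩ | ⟨_, hr⟩ | ⟨_, hr⟩ | ⟨hr, _⟩ |
        ⟨m, hm1, hm2, hm, hc⟩
      · exact ff h g
      · omega
      · omega
      · omega
      · rw [RT6 hm1 hm2 hm] at h1
        rcases hm with rfl | rfl
        · rw [hc.c2, h1] at h
          exact absurd h (by simp)
        · have h5 := hc.par 2 (by norm_num)
          have e2 : 4 + 6 * i + 2 = 6 + 6 * i := by omega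
          rw [e2] at h5
          rw [hc.c2', ← h5, h1] at h
          exact absurd h (by simp)
  by_cases h2 : y = 6 + 6 * i
  · subst h2
    have e : 6 + 6 * i = 4 + 6 * i + 2 := by omega
    have h' := h
    rw [e] at h'
    constructor
    · intro _
      exact Or.inr (Or.inl ⟨Or.inl (by simp only; omega), hx1, hx2⟩)
    · intro _
      rcases S.vert (by norm_num) hx1 (by omega) h' with ⟨hr, _⟩ | ⟨hr, _⟩ | ⟨_, hr⟩ | ⟨hr, _⟩ |
        ⟨m, hm1, hm2, hm, hc⟩
      · exact Or.inl ⟨rfl, Or.inl hr⟩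
      · exact Or.inl ⟨rfl, Or.inr (Or.inl hr)⟩
      · omega
      · omega
      · rw [RT6 hm1 hm2 hm]
        rcases hm with rfl | rfl
        · exact h
        · have h5 := hc.par 2 (by norm_num)
          rw [← e] at h5
          rw [h5]
          exact h
  by_cases h3 : y = 7 + 6 * i ∨ y = 8 + 6 * i
  · have hv : x = 7 + 4 * k ∨ x = 5 + 4 * s.length ∨ btw k s.length x := by
      rcases h3 with rfl | rfl
      · have e : 7 + 6 * i = 4 + 6 * i + 3 := by omega
        have h' := h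
        rw [e] at h'
        rcases S.vert (by norm_num) hx1 (by omega) h' with ⟨hr, _⟩ | ⟨_, hr⟩ | ⟨hr, _⟩ |
          ⟨hr, _⟩ | ⟨m, hm1, hm2, hm, hc⟩
        · exact Or.inl hr
        · omega
        · exact Or.inr (Or.inl hr)
        · omega
        · exact Or.inr (Or.inr (btw_mk hm1 hm2 hm).1)
      · have e : 8 + 6 * i = 4 + 6 * i + 4 := by omega
        have h' := h
        rw [e] at h'
        rcases S.vert (by norm_num) hx1 (by omega) h' with ⟨hr, _⟩ | ⟨_, hr⟩ | ⟨hr, _⟩ |
          ⟨hr, _⟩ | ⟨m, hm1, hm2, hm, hc⟩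
        · exact Or.inl hr
        · omega
        · exact Or.inr (Or.inl hr)
        · omega
        · exact Or.inr (Or.inr (btw_mk hm1 hm2 hm).1)
    have a1 : RT vU i k s.length (x, 8 + 6 * i) := Or.inr (Or.inr (Or.inl ⟨rfl, hv⟩))
    have a2 : RT vU i k s.length (x, 7 + 6 * i) := Or.inr (Or.inl ⟨Or.inl rfl, hx1, hx2⟩)
    have a3 : RT vU i k s.length (x, 9 + 6 * i) := Or.inr (Or.inl ⟨Or.inr rfl, hx1, hx2⟩)
    rcases h3 with rfl | rfl
    · have e : 7 + 6 * i + 1 = 8 + 6 * i := by omega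
      rw [e]
      exact ⟨fun _ => a1, fun _ => a2⟩
    · have e : 8 + 6 * i + 1 = 9 + 6 * i := by omega
      rw [e]
      exact ⟨fun _ => a3, fun _ => a1⟩
  by_cases h5 : y = 9 + 6 * i
  · subst h5
    have e : 9 + 6 * i = 4 + 6 * i + 5 := by omega
    have h' := h
    rw [e] at h'
    have e10 : 9 + 6 * i + 1 = 10 + 6 * i := by omega
    rw [e10]
    constructor
    · intro _
      rcases S.vert (by norm_num) hx1 (by omega) h' with ⟨_, hr⟩ | ⟨_, hr⟩ | ⟨_, hr⟩ |
        ⟨_, hr⟩ | ⟨m, hm1, hm2, hm, hc⟩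
      · omega
      · omega
      · omega
      · omega
      · rw [RT10 hm1 hm2 hm]
        rcases hm with rfl | rfl
        · exact h
        · have h5 := hc.par 5 (by norm_num)
          rw [← e] at h5
          rw [h5]
          exact h
    · intro _
      exact Or.inr (Or.inl ⟨Or.inr rfl, hx1, hx2⟩)
  by_cases h6 : y = 10 + 6 * i
  · subst h6
    constructor
    · rintro (⟨h3, _⟩ | ⟨h3, _⟩ | ⟨h3, _⟩ | ⟨_, h3, h4⟩)
      · simp only at h3; omega
      · simp only at h3; omega
      · simp only at h3; omega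
      · exfalso
        simp only at h3 h4
        obtain ⟨a1, a2, a3, a4⟩ := h3
        generalize hm : (x - 5) / 4 = m at *
        have e : 9 + 6 * i = 4 + 6 * i + 5 := by omega
        have h4' := h4
        rw [e] at h4'
        have hc := S.crs_of (by norm_num) a2 a3 h4'
        have hxm : x = 6 + 4 * m ∨ x = 7 + 4 * m := by omega
        rcases hxm with rfl | rfl
        · rw [hc.c6, h] at h4
          exact absurd h4 (by simp)
        · have h5 := hc.par 5 (by norm_num)
          rw [← e] at h5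
          rw [h5, hc.c6', h] at h4
          exact absurd h4 (by simp)
    · intro h1
      exfalso
      simp only [RT] at h1
      omega
  · constructor
    · intro h1
      exfalso
      simp only [RT] at h1
      omega
    · intro h1
      exfalso
      simp only [RT] at h1
      omega

/-- the closed set if the block and the right ring are in the state `false` -/
def RF (vU : ℕ → ℕ → Bool) (i k n : ℕ) (p : Pt) : Prop :=
  (p.2 = 6 + 6 * i ∧ (p.1 = 7 + 4 * k ∨ p.1 = 8 + 4 * k ∨ p.1 = 6 + 4 * n ∨ btw k n p.1)) ∨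
  (p.2 = 5 + 6 * i ∧ 7 + 4 * k ≤ p.1 ∧ p.1 ≤ 6 + 4 * n) ∨
  (p.2 = 7 + 6 * i ∧ 8 + 4 * k ≤ p.1 ∧ p.1 ≤ 6 + 4 * n) ∨
  (p.2 = 4 + 6 * i ∧ btw k n p.1 ∧ vU (6 + 4 * ((p.1 - 5) / 4)) (4 + 6 * i) = true) ∨
  (p.2 = 8 + 6 * i ∧ btw k n p.1 ∧ vU (6 + 4 * ((p.1 - 5) / 4)) (7 + 6 * i) = true)

/-- membership on the cluster lines `4` and `8` -/
lemma RF4 {vU : ℕ → ℕ → Bool} {i k n m x : ℕ} (h1 : k < m) (h2 : m < n)
    (h3 : x = 6 + 4 * m ∨ x = 7 + 4 * m) :
    RF vU i k n (x, 4 + 6 * i) ↔ vU (6 + 4 * m) (4 + 6 * i) = true := by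
  have b := btw_mk h1 h2 h3
  constructor
  · rintro (⟨h, _⟩ | ⟨h, _⟩ | ⟨h, _⟩ | ⟨_, _, h⟩ | ⟨h, _⟩)
    · simp only at h; omega
    · simp only at h; omega
    · simp only at h; omega
    · simp only at h
      rwa [b.2] at h
    · simp only at h; omega
  · intro h
    refine Or.inr (Or.inr (Or.inr (Or.inl ⟨rfl, b.1, ?_⟩)))
    simp only
    rwa [b.2]

lemma RF8 {vU : ℕ → ℕ → Bool} {i k n m x : ℕ} (h1 : k < m) (h2 : m < n)
    (h3 : x = 6 + 4 * m ∨ x = 7 + 4 * m) :
    RF vU i k n (x, 8 + 6 * i) ↔ vU (6 + 4 * m) (7 + 6 * i) = true := by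
  have b := btw_mk h1 h2 h3
  constructor
  · rintro (⟨h, _⟩ | ⟨h, _⟩ | ⟨h, _⟩ | ⟨h, _⟩ | ⟨_, _, h⟩)
    · simp only at h; omega
    · simp only at h; omega
    · simp only at h; omega
    · simp only at h; omega
    · simp only at h
      rwa [b.2] at h
  · intro h
    refine Or.inr (Or.inr (Or.inr (Or.inr ⟨rfl, b.1, ?_⟩)))
    simp only
    rwa [b.2]

lemma RF_h (S : RSit s M hU vU i k) (g : hU (6 + 4 * k) (5 + 6 * i) = false)
    (x y : ℕ) (h : hU x y = true) :
    RF vU i k s.length (x, y) ↔ RF vU i k s.length (x + 1, y) := by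
  have hl := S.hl
  by_cases hx : 6 + 4 * k ≤ x ∧ x ≤ 6 + 4 * s.length
  swap
  · constructor
    · intro h1
      exfalso
      simp only [RF, Pool.Agent.Helper34.Grid.btw] at h1
      omega
    · intro h1
      exfalso
      simp only [RF, Pool.Agent.Helper34.Grid.btw] at h1
      omega
  obtain ⟨hx1, hx2⟩ := hx
  by_cases h0 : y = 4 + 6 * i
  · subst h0
    rcases S.hor (r := 0) (by norm_num) hx1 hx2 h with ⟨hr, _⟩ | ⟨_, hr⟩ | ⟨_, hr⟩ | ⟨_, hr⟩ |
      ⟨_, hr⟩ | ⟨m, hm1, hm2, hm⟩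
    · subst hr
      simp only [RF, Pool.Agent.Helper34.Grid.btw]
      omega
    · omega
    · omega
    · omega
    · omega
    · have hxm : x = 6 + 4 * m := by omega
      subst hxm
      rw [RF4 hm1 hm2 (Or.inl rfl), RF4 hm1 hm2 (Or.inr (by omega))]
  by_cases h1 : y = 5 + 6 * i
  · subst h1
    have e : 5 + 6 * i = 4 + 6 * i + 1 := by omega
    have h' := h
    rw [e] at h'
    have n1 : x ≠ 6 + 4 * k := by rintro rfl; exact ff h g
    have n2 : x ≠ 6 + 4 * s.length := by
      rcases S.hor (by norm_num) hx1 hx2 h' with ⟨hr, _⟩ | ⟨hr, _⟩ | ⟨hr, _⟩ | ⟨hr, _⟩ |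
        ⟨_, hr⟩ | ⟨m, hm1, hm2, hm⟩
      · omega
      · omega
      · omega
      · omega
      · omega
      · omega
    exact ⟨fun _ => Or.inr (Or.inl ⟨rfl, by simp only; omega, by simp only; omega⟩),
      fun _ => Or.inr (Or.inl ⟨rfl, by simp only; omega, by simp only; omega⟩)⟩
  by_cases h2 : y = 6 + 6 * i
  · subst h2
    have e : 6 + 6 * i = 4 + 6 * i + 2 := by omega
    have h' := h
    rw [e] at h'
    rcases S.hor (by norm_num) hx1 hx2 h' with ⟨_, hr⟩ | ⟨rfl, _⟩ | ⟨_, hr⟩ | ⟨_, hr⟩ |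
      ⟨_, hr⟩ | ⟨m, hm1, hm2, hm⟩
    · omega
    · exact ⟨fun _ => Or.inl ⟨rfl, Or.inr (Or.inl (by simp only; omega))⟩,
        fun _ => Or.inl ⟨rfl, Or.inl rfl⟩⟩
    · omega
    · omega
    · omega
    · have hxm : x = 6 + 4 * m := by omega
      subst hxm
      have b1 := btw_mk hm1 hm2 (Or.inl (rfl : 6 + 4 * m = 6 + 4 * m))
      have b2 := btw_mk hm1 hm2 (x := 6 + 4 * m + 1) (Or.inr (by omega))
      exact ⟨fun _ => Or.inl ⟨rfl, Or.inr (Or.inr (Or.inr b2.1))⟩,
        fun _ => Or.inl ⟨rfl, Or.inr (Or.inr (Or.inr b1.1))⟩⟩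
  by_cases h3 : y = 7 + 6 * i
  · subst h3
    have e : 7 + 6 * i = 4 + 6 * i + 3 := by omega
    have h' := h
    rw [e] at h'
    rcases S.hor (by norm_num) hx1 hx2 h' with ⟨hr, _⟩ | ⟨_, hr⟩ | ⟨hr, _⟩ | ⟨hr, _⟩ |
      ⟨_, hr⟩ | ⟨m, hm1, hm2, hm⟩
    · subst hr
      simp only [RF, Pool.Agent.Helper34.Grid.btw]
      omega
    · omega
    · exact ⟨fun _ => Or.inr (Or.inr (Or.inl ⟨rfl, by simp only; omega, by simp only; omega⟩)),
        fun _ => Or.inr (Or.inr (Or.inl ⟨rfl, by simp only; omega, by simp only; omega⟩))⟩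
    · exact ⟨fun _ => Or.inr (Or.inr (Or.inl ⟨rfl, by simp only; omega, by simp only; omega⟩)),
        fun _ => Or.inr (Or.inr (Or.inl ⟨rfl, by simp only; omega, by simp only; omega⟩))⟩
    · omega
    · exact ⟨fun _ => Or.inr (Or.inr (Or.inl ⟨rfl, by simp only; omega, by simp only; omega⟩)),
        fun _ => Or.inr (Or.inr (Or.inl ⟨rfl, by simp only; omega, by simp only; omega⟩))⟩
  by_cases h4 : y = 8 + 6 * i
  · subst h4
    have e : 8 + 6 * i = 4 + 6 * i + 4 := by omega
    have h' := h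
    rw [e] at h'
    rcases S.hor (by norm_num) hx1 hx2 h' with ⟨_, hr⟩ | ⟨_, hr⟩ | ⟨_, hr⟩ | ⟨hr, _⟩ | ⟨hr, _⟩ |
      ⟨m, hm1, hm2, hm⟩
    · omega
    · omega
    · omega
    · subst hr
      simp only [RF, Pool.Agent.Helper34.Grid.btw]
      omega
    · subst hr
      simp only [RF, Pool.Agent.Helper34.Grid.btw]
      omega
    · have hxm : x = 6 + 4 * m := by omega
      subst hxm
      rw [RF8 hm1 hm2 (Or.inl rfl), RF8 hm1 hm2 (Or.inr (by omega))]
  · constructor
    · intro h1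
      exfalso
      simp only [RF] at h1
      omega
    · intro h1
      exfalso
      simp only [RF] at h1
      omega

lemma RF_v (S : RSit s M hU vU i k) (g0 : vU (7 + 4 * k) (4 + 6 * i) = false)
    (g2 : vU (7 + 4 * k) (6 + 6 * i) = false)
    (g3 : vU (5 + 4 * s.length) (7 + 6 * i) = false)
    (g4 : vU (6 + 4 * s.length) (7 + 6 * i) = false) (x y : ℕ) (h : vU x y = true) :
    RF vU i k s.length (x, y) ↔ RF vU i k s.length (x, y + 1) := by
  have hl := S.hl
  by_cases hx : 7 + 4 * k ≤ x ∧ x ≤ 6 + 4 * s.length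
  swap
  · constructor
    · intro h1
      exfalso
      simp only [RF, Pool.Agent.Helper34.Grid.btw] at h1
      omega
    · intro h1
      exfalso
      simp only [RF, Pool.Agent.Helper34.Grid.btw] at h1
      omega
  obtain ⟨hx1, hx2⟩ := hx
  by_cases hm1 : y + 1 = 4 + 6 * i
  · have ey : y = 3 + 6 * i := by omega
    subst ey
    rw [hm1]
    constructor
    · intro h1
      exfalso
      simp only [RF] at h1
      omega
    · rintro (⟨h3, _⟩ | ⟨h3, _⟩ | ⟨h3, _⟩ | ⟨_, h3, h4⟩ | ⟨h3, _⟩)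
      · simp only at h3; omega
      · simp only at h3; omega
      · simp only at h3; omega
      · exfalso
        simp only at h3 h4
        obtain ⟨a1, a2, a3, a4⟩ := h3
        generalize hm : (x - 5) / 4 = m at *
        have hc := S.crs_of (r := 0) (by norm_num) a2 a3 h4
        have hxm : x = 6 + 4 * m ∨ x = 7 + 4 * m := by omega
        rcases hxm with rfl | rfl
        · rw [hc.c0, h4] at h
          exact absurd h (by simp)
        · have h5 := hc.par 0 (by norm_num)
          rw [Nat.add_zero] at h5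
          rw [hc.c0', ← h5, h4] at h
          exact absurd h (by simp)
      · simp only at h3; omega
  by_cases h0 : y = 4 + 6 * i
  · subst h0
    have a1 : RF vU i k s.length (x, 4 + 6 * i + 1) :=
      Or.inr (Or.inl ⟨by simp only; omega, hx1, hx2⟩)
    refine ⟨fun _ => a1, fun _ => ?_⟩
    rcases S.vert (r := 0) (by norm_num) hx1 hx2 h with ⟨rfl, _⟩ | ⟨_, hr⟩ | ⟨_, hr⟩ |
      ⟨_, hr⟩ | ⟨m, hm1, hm2, hm, hc⟩
    · exact (ff h g0).elim
    · omega
    · omega
    · omega
    · rw [RF4 hm1 hm2 hm]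
      rcases hm with rfl | rfl
      · exact h
      · have h5 := hc.par 0 (by norm_num)
        rw [Nat.add_zero] at h5
        rw [h5]
        exact h
  by_cases h1 : y = 5 + 6 * i
  · subst h1
    have e : 5 + 6 * i = 4 + 6 * i + 1 := by omega
    have h' := h
    rw [e] at h'
    refine ⟨fun _ => Or.inl ⟨by simp only; omega, ?_⟩,
      fun _ => Or.inr (Or.inl ⟨rfl, hx1, hx2⟩)⟩
    simp only
    rcases S.vert (by norm_num) hx1 hx2 h' with ⟨hr, _⟩ | ⟨_, hr⟩ | ⟨_, hr⟩ | ⟨hr, _⟩ |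
      ⟨m, hm1, hm2, hm, hc⟩
    · exact Or.inl hr
    · omega
    · omega
    · exact Or.inr (Or.inr (Or.inl hr))
    · exact Or.inr (Or.inr (Or.inr (btw_mk hm1 hm2 hm).1))
  by_cases h2 : y = 6 + 6 * i
  · subst h2
    have e : 6 + 6 * i = 4 + 6 * i + 2 := by omega
    have h' := h
    rw [e] at h'
    have key : (x = 8 + 4 * k ∨ x = 6 + 4 * s.length ∨ btw k s.length x) ∧ 8 + 4 * k ≤ x ∧
        x ≤ 6 + 4 * s.length := by
      rcases S.vert (by norm_num) hx1 hx2 h' with ⟨rfl, _⟩ | ⟨hr, _⟩ | ⟨_, hr⟩ | ⟨hr, _⟩ |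
        ⟨m, hm1, hm2, hm, hc⟩
      · exact (ff h g2).elim
      · exact ⟨Or.inl hr, by omega, by omega⟩
      · omega
      · exact ⟨Or.inr (Or.inl hr), by omega, by omega⟩
      · exact ⟨Or.inr (Or.inr (btw_mk hm1 hm2 hm).1), by omega, by omega⟩
    obtain ⟨k1, k2, k3⟩ := key
    refine ⟨fun _ => Or.inr (Or.inr (Or.inl ⟨by simp only; omega, k2, k3⟩)),
      fun _ => Or.inl ⟨rfl, ?_⟩⟩
    simp only
    rcases k1 with k1 | k1 | k1
    · exact Or.inr (Or.inl k1)
    · exact Or.inr (Or.inr (Or.inl k1))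
    · exact Or.inr (Or.inr (Or.inr k1))
  by_cases h3 : y = 7 + 6 * i
  · subst h3
    have e : 7 + 6 * i = 4 + 6 * i + 3 := by omega
    have h' := h
    rw [e] at h'
    have e8 : 7 + 6 * i + 1 = 8 + 6 * i := by omega
    rw [e8]
    rcases S.vert (by norm_num) hx1 hx2 h' with ⟨hr, _⟩ | ⟨_, hr⟩ | ⟨hr, _⟩ | ⟨hr, _⟩ |
      ⟨m, hm1, hm2, hm, hc⟩
    · subst hr
      simp only [RF, Pool.Agent.Helper34.Grid.btw]
      omega
    · omega
    · subst hr
      exact (ff h g3).elim
    · subst hr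
      exact (ff h g4).elim
    · rw [RF8 hm1 hm2 hm]
      constructor
      · intro _
        rcases hm with rfl | rfl
        · exact h
        · have h5 := hc.par 3 (by norm_num)
          rw [← e] at h5
          rw [h5]
          exact h
      · intro _
        exact Or.inr (Or.inr (Or.inl ⟨rfl, by simp only; omega, by simp only; omega⟩))
  by_cases h4 : y = 8 + 6 * i
  · subst h4
    constructor
    · rintro (⟨h3, _⟩ | ⟨h3, _⟩ | ⟨h3, _⟩ | ⟨h3, _⟩ | ⟨_, h3, h4⟩)
      · simp only at h3; omega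
      · simp only at h3; omega
      · simp only at h3; omega
      · simp only at h3; omega
      · exfalso
        simp only at h3 h4
        obtain ⟨a1, a2, a3, a4⟩ := h3
        generalize hm : (x - 5) / 4 = m at *
        have e : 7 + 6 * i = 4 + 6 * i + 3 := by omega
        have h4' := h4
        rw [e] at h4'
        have hc := S.crs_of (by norm_num) a2 a3 h4'
        have hxm : x = 6 + 4 * m ∨ x = 7 + 4 * m := by omega
        rcases hxm with rfl | rfl
        · rw [hc.c4, h] at h4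
          exact absurd h4 (by simp)
        · have h5 := hc.par 3 (by norm_num)
          rw [← e] at h5
          rw [h5, hc.c4', h] at h4
          exact absurd h4 (by simp)
    · intro h1
      exfalso
      simp only [RF] at h1
      omega
  · constructor
    · intro h1
      exfalso
      simp only [RF] at h1
      omega
    · intro h1
      exfalso
      simp only [RF] at h1
      omega

/-- the state of the right ring is opposite to the state of the last block -/
theorem RSit.main (S : RSit s M hU vU i k) :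
    vU (5 + 4 * s.length) (7 + 6 * i) = !vU (6 + 4 * k) (6 + 6 * i) := by
  have hl := S.hl
  have hi := S.hi
  have hk := S.hk
  have B := blk S.U hl hi hk
  have R := S.rend
  have v2 : Vert (hC s M) (vC s M) (7 + 4 * k, 6 + 6 * i) := by
    left
    have := hC_cell s M k 2 i 2 hl (by norm_num) hi (by norm_num)
    have e1 : 5 + 4 * k + 2 = 7 + 4 * k := by omega
    have e2 : 4 + 6 * i + 2 = 6 + 6 * i := by omega
    rw [e1, e2] at this
    simp only
    rw [this]
    rcases hk with h | h <;> rw [h] <;> rfl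
  have v1 : Vert (hC s M) (vC s M) (7 + 4 * k, 5 + 6 * i) := by
    left
    have := hC_cell s M k 2 i 1 hl (by norm_num) hi (by norm_num)
    have e1 : 5 + 4 * k + 2 = 7 + 4 * k := by omega
    have e2 : 4 + 6 * i + 1 = 5 + 6 * i := by omega
    rw [e1, e2] at this
    simp only
    rw [this]
    rcases hk with h | h <;> rw [h] <;> rfl
  have v3 : Vert (hC s M) (vC s M) (7 + 4 * k, 7 + 6 * i) := by
    right; right; left
    have := vC_cell s M k 2 i 3 hl (by norm_num) hi (by norm_num)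
    have e1 : 5 + 4 * k + 2 = 7 + 4 * k := by omega
    have e2 : 4 + 6 * i + 3 = 7 + 6 * i := by omega
    rw [e1, e2] at this
    simp only
    rw [this]
    rcases hk with h | h <;> rw [h] <;> rfl
  rcases hσ : vU (6 + 4 * k) (6 + 6 * i) with _ | _
  · -- state false
    rcases hσ' : vU (5 + 4 * s.length) (7 + 6 * i) with _ | _
    · exfalso
      have b1 := B.b1
      have t1 := B.t1
      have t3 := B.t3
      have rb := R.b
      rw [B.b2, hσ] at b1
      rw [B.t2, hσ] at t1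
      rw [hσ] at t3
      rw [hσ'] at rb
      have g : hU (6 + 4 * k) (5 + 6 * i) = false := by
        revert b1
        cases hU (6 + 4 * k) (5 + 6 * i) <;> simp; omega
      have g0 : vU (7 + 4 * k) (4 + 6 * i) = false := by
        revert t1
        cases vU (7 + 4 * k) (4 + 6 * i) <;> simp
      have := S.U.cut (RF vU i k s.length) (RF_h S g) (RF_v S g0 t3 hσ' rb) _ _ v2 v3
        (Or.inl ⟨rfl, Or.inl rfl⟩)
      simp only [RF] at this
      omega
    · rfl
  · rcases hσ' : vU (5 + 4 * s.length) (7 + 6 * i) with _ | _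
    · rfl
    · exfalso
      have g : hU (6 + 4 * k) (7 + 6 * i) = false := by rw [B.b3, hσ]; rfl
      have q : vU (7 + 4 * k) (5 + 6 * i) = false := by rw [B.t2, hσ]; rfl
      have ra : hU (5 + 4 * s.length) (7 + 6 * i) = false := by rw [R.a, hσ']; rfl
      have rc : hU (5 + 4 * s.length) (8 + 6 * i) = false := by rw [R.c, hσ']; rfl
      have := S.U.cut (RT vU i k s.length) (RT_h S g ra rc) (RT_v S q) _ _ v2 v1
        (Or.inl ⟨rfl, Or.inl rfl⟩)
      simp only [RT] at this
      omega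

end

open Pool.Agent.Helper58.Grid in
/-- the last block of a row -/
lemma rs_last (s : List Sub) (i : ℕ) : (∀ k d, sg s k ≠ some (i, d)) ∨
    ∃ k d, sg s k = some (i, d) ∧ ∀ m, k < m → ∀ d, sg s m ≠ some (i, d) := by
  classical
  by_cases h : ∃ k, ∃ d, sg s k = some (i, d)
  · right
    have hb : ∀ k, (∃ d, sg s k = some (i, d)) → k ≤ s.length := by
      rintro k ⟨d, hd⟩
      have : k < s.length := lt_of_sg (by rw [hd]; simp)
      omega
    obtain ⟨k, hk⟩ := h
    have h1 : ∃ d, sg s (Nat.findGreatest (fun k => ∃ d, sg s k = some (i, d)) s.length) =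
        some (i, d) := Nat.findGreatest_spec (P := fun k => ∃ d, sg s k = some (i, d)) (hb k hk) hk
    obtain ⟨d, hd⟩ := h1
    refine ⟨_, d, hd, fun m hm d' hd' => ?_⟩
    have h3 := Nat.le_findGreatest (P := fun k => ∃ d, sg s k = some (i, d)) (hb m ⟨d', hd'⟩)
      ⟨d', hd'⟩
    omega
  · left
    intro k d hk
    exact h ⟨k, d, hk⟩

open Pool.Agent.Helper58.Grid in
/-- (RS) soundness, with the right ends of the rows -/
theorem rs : specRS := by
  intro φ M hU vU hφ U
  obtain ⟨a, hsat, hreads⟩ := sound mod_Xor clause φ M hU vU hφ U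
  have hs : ∀ k i d, sg (subs φ) k = some (i, d) → i < 2 * M + 1 := by
    intro k i d h
    obtain ⟨c, hc, l, hl, hli⟩ := mem_subs (sg_mem h)
    rw [← hli]
    exact hφ c hc l hl
  classical
  refine ⟨fun i => if ∃ k d, sg (subs φ) k = some (i, d) then a i else
    vU (5 + 4 * (subs φ).length) (7 + 6 * i), ?_, ?_⟩
  · intro c hc
    obtain ⟨l, hl, hal⟩ := hsat c hc
    refine ⟨l, hl, ?_⟩
    have hex : ∃ k d, sg (subs φ) k = some (l.1, d) := by
      have hmem : (some (l.1, l.2) : Sub) ∈ subs φ := by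
        simp only [subs, List.mem_flatMap, clSubs, List.mem_cons]
        exact ⟨c, hc, Or.inr ⟨l, hl, Or.inl rfl⟩⟩
      obtain ⟨k, hk, hkk⟩ := List.getElem_of_mem hmem
      refine ⟨k, l.2, ?_⟩
      unfold sg
      rw [List.getD_eq_getElem _ _ hk, hkk]
    simp only [if_pos hex]
    exact hal
  · intro i hi
    rcases rs_last (subs φ) i with h | ⟨k, d, hk, hno⟩
    · have : ¬ ∃ k d, sg (subs φ) k = some (i, d) := by
        rintro ⟨k, d, hk⟩
        exact h k d hk
      simp only [if_neg this]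
    · have hex : ∃ k d, sg (subs φ) k = some (i, d) := ⟨k, d, hk⟩
      simp only [if_pos hex]
      have hl : k < (subs φ).length := lt_of_sg (by rw [hk]; simp)
      have S : RSit (subs φ) M hU vU i k := ⟨hs, U, hl, hi, kind_blk hk, hno⟩
      rw [S.main]
      have h1 := hreads i k d hk
      unfold sigma at h1
      rw [h1]
      have h2 : cnt (subs φ) i k % 2 = 1 := by
        have h3 := cnt_succ_self hk
        have h4 : cnt (subs φ) i (subs φ).length = cnt (subs φ) i (k + 1) :=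
          cnt_const (by omega) (fun k'' d'' h1 _ => hno k'' (by omega) d'')
        have h5 : cnt (subs φ) i (subs φ).length = cn i (subs φ) := by
          rw [cnt_eq, List.take_length]
        have h6 := cn_subs i φ
        omega
      rw [h2]
      simp

end Pool.Agent.Helper33.ES
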